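import Pool.Agent.U197.FPure.Global

/-!
Every excellent regular ring of prime characteristic is F-pure regular.

More generally: let `R` be a regular ring of prime characteristic `p` such that for every prime
ideal `P` the regular locus of `R ⧸ P` contains a nonempty open set.  Then `R` is F-pure regular.
-/

set_option autoImplicit false

namespace Pool.Agent.Results.MP_9ff724_al.FPureRegular

universe u w

open scoped TensorProduct
open IsLocalRing

/-! ### The module `F^e_* R` and the maps `λ^e_c` -/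

/-- The additive group of `F^e_* R` is that of `R`. -/
def FStar (R : Type u) (_p _e : ℕ) : Type u := R

instance (R : Type u) [CommRing R] (p e : ℕ) : AddCommGroup (FStar R p e) :=
  inferInstanceAs (AddCommGroup R)

/-- The element `F^e_* s` of `F^e_* R`, for `s` in `R`. -/
def Fe (R : Type u) [CommRing R] (p e : ℕ) : R ≃+ FStar R p e := AddEquiv.refl R

/-- The `R`-module structure of `F^e_* R`: `r • F^e_* s = F^e_* (r ^ (p ^ e) * s)`. -/
instance (R : Type u) [CommRing R] (p : ℕ) [Fact p.Prime] [CharP R p] (e : ℕ) :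
    Module R (FStar R p e) where
  smul r s := Fe R p e (r ^ p ^ e * (Fe R p e).symm s)
  one_smul s := by
    change Fe R p e (1 ^ p ^ e * (Fe R p e).symm s) = s
    rw [one_pow, one_mul, AddEquiv.apply_symm_apply]
  mul_smul r s t := by
    change Fe R p e ((r * s) ^ p ^ e * (Fe R p e).symm t) =
      Fe R p e (r ^ p ^ e * (Fe R p e).symm (Fe R p e (s ^ p ^ e * (Fe R p e).symm t)))
    rw [AddEquiv.symm_apply_apply, mul_pow, mul_assoc]
  smul_zero r := by
    change Fe R p e (r ^ p ^ e * (Fe R p e).symm 0) = 0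
    rw [map_zero, mul_zero, map_zero]
  smul_add r s t := by
    change Fe R p e (r ^ p ^ e * (Fe R p e).symm (s + t)) =
      Fe R p e (r ^ p ^ e * (Fe R p e).symm s) + Fe R p e (r ^ p ^ e * (Fe R p e).symm t)
    rw [map_add, mul_add, map_add]
  add_smul r s t := by
    change Fe R p e ((r + s) ^ p ^ e * (Fe R p e).symm t) =
      Fe R p e (r ^ p ^ e * (Fe R p e).symm t) + Fe R p e (s ^ p ^ e * (Fe R p e).symm t)
    rw [add_pow_char_pow, add_mul, map_add]
  zero_smul s := by
    change Fe R p e (0 ^ p ^ e * (Fe R p e).symm s) = 0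
    rw [zero_pow (pow_ne_zero e (Fact.out : p.Prime).ne_zero), zero_mul, map_zero]

theorem smul_Fe (R : Type u) [CommRing R] (p : ℕ) [Fact p.Prime] [CharP R p] (e : ℕ)
    (r s : R) : r • Fe R p e s = Fe R p e (r ^ p ^ e * s) := by
  change Fe R p e (r ^ p ^ e * (Fe R p e).symm (Fe R p e s)) = _
  rw [AddEquiv.symm_apply_apply]

/-- The `R`-linear map `λ^e_c : R → F^e_* R`, `r ↦ F^e_* (c * r ^ (p ^ e))`. -/
def lam (R : Type u) [CommRing R] (p : ℕ) [Fact p.Prime] [CharP R p] (e : ℕ) (c : R) :
    R →ₗ[R] FStar R p e where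
  toFun r := Fe R p e (c * r ^ p ^ e)
  map_add' r s := by rw [add_pow_char_pow, mul_add, map_add]
  map_smul' r s := by
    rw [smul_eq_mul, mul_pow, RingHom.id_apply, smul_Fe]
    congr 1
    ring

/-- A linear map is pure if it stays injective after tensoring with every module. -/
def IsPureMap {R : Type u} [CommRing R] {M N : Type u} [AddCommGroup M] [Module R M]
    [AddCommGroup N] [Module R N] (f : M →ₗ[R] N) : Prop :=
  ∀ (Q : Type w) [AddCommGroup Q] [Module R Q],
    Function.Injective (LinearMap.rTensor Q f : M ⊗[R] Q →ₗ[R] N ⊗[R] Q)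

/-- `R` is F-pure regular: for each `c` outside all minimal primes some `λ^e_c`, `e ≥ 1`,
is pure. -/
def IsFPureRegular (R : Type u) [CommRing R] (p : ℕ) [Fact p.Prime] [CharP R p] : Prop :=
  ∀ c : R, (∀ P ∈ minimalPrimes R, c ∉ P) → ∃ e : ℕ, 1 ≤ e ∧ IsPureMap.{u, w} (lam R p e c)

/-! ### Excellent rings -/

/-- The regular locus of `S` is open in `Spec S`. -/
def RegularLocusOpen (S : Type u) [CommRing S] : Prop :=
  IsOpen {x : PrimeSpectrum S | IsRegularLocalRing (Localization.AtPrime x.asIdeal)}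

/-- Catenary: any two saturated chains of primes with the same ends have the same length. -/
def IsCatenary (S : Type u) [CommRing S] : Prop :=
  ∀ s t : RelSeries {(a, b) : PrimeSpectrum S × PrimeSpectrum S | a ⋖ b},
    s.head = t.head → s.last = t.last → s.length = t.length

/-- The formal fibres of the local ring `A` are geometrically regular. -/
def FormalFibresGeomRegular (A : Type u) [CommRing A] [IsLocalRing A] : Prop :=
  ∀ (q : Ideal A) [q.IsPrime] (L : Type u) [Field L] [Algebra A L] [Algebra q.ResidueField L]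
    [IsScalarTower A q.ResidueField L] [FiniteDimensional q.ResidueField L],
    IsRegularRing (L ⊗[A] AdicCompletion (maximalIdeal A) A)

/-- Excellent rings in the sense of Grothendieck. -/
structure IsExcellentRing (R : Type u) [CommRing R] : Prop where
  noetherian : IsNoetherianRing R
  universally_catenary : ∀ (S : Type u) [CommRing S] [Algebra R S], Algebra.FiniteType R S →
    IsCatenary S
  g_ring : ∀ (P : Ideal R) [P.IsPrime], FormalFibresGeomRegular (Localization.AtPrime P)
  j_two : ∀ (S : Type u) [CommRing S] [Algebra R S], Algebra.FiniteType R S →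
    RegularLocusOpen S

/-! ### Proof -/

open Pool.Agent.U197.FPure

theorem flat_FStar (R : Type u) [CommRing R] [IsRegularRing R] (p : ℕ) [Fact p.Prime]
    [CharP R p] (e : ℕ) : Module.Flat R (FStar R p e) := by
  apply Module.Flat.of_forall_isTrivialRelation
  intro l f x hfx
  obtain ⟨b, rfl⟩ : ∃ b : Fin l → R, x = fun i => Fe R p e (b i) :=
    ⟨fun i => (Fe R p e).symm (x i), by funext i; rw [AddEquiv.apply_symm_apply]⟩
  simp only [smul_Fe] at hfx
  rw [← map_sum, EmbeddingLike.map_eq_zero_iff] at hfx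
  obtain ⟨κ, hκ, c, y, hc, hy⟩ := kunz_global R p e (Fin l) f b (by
    rw [Ideal.mem_bot]
    simp only [iterateFrobenius_def]
    exact hfx)
  rw [Module.isTrivialRelation_iff_vanishesTrivially]
  refine TensorProduct.VanishesTrivially.of_fintype (fun i k => c k i)
    (fun k => Fe R p e (y k)) ?_ ?_
  · intro i
    have h1 := hy i
    rw [Ideal.mem_bot, sub_eq_zero] at h1
    rw [h1, map_sum]
    simp only [smul_Fe, iterateFrobenius_def]
  · intro k
    have h1 := hc k
    rw [Ideal.mem_bot] at h1
    rw [← h1]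
    exact Finset.sum_congr rfl fun i _ => by rw [smul_eq_mul, mul_comm]

theorem mem_map_of_mem_smul_top (R : Type u) [CommRing R] (p : ℕ) [Fact p.Prime]
    [CharP R p] (e : ℕ) (I : Ideal R) (s : FStar R p e)
    (hs : s ∈ (I • ⊤ : Submodule R (FStar R p e))) :
    (Fe R p e).symm s ∈ I.map (iterateFrobenius R p e) := by
  refine Submodule.smul_induction_on
    (p := fun s => (Fe R p e).symm s ∈ I.map (iterateFrobenius R p e)) hs ?_ ?_
  · intro r hr t _
    obtain ⟨t, rfl⟩ := (Fe R p e).surjective t
    rw [smul_Fe, AddEquiv.symm_apply_apply, ← iterateFrobenius_def]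
    exact Ideal.mul_mem_right _ _ (Ideal.mem_map_of_mem _ hr)
  · intro s t hs ht
    rw [map_add]
    exact Ideal.add_mem _ hs ht

theorem fPureRegular_of_generic (R : Type u) [CommRing R] [IsRegularRing R] (p : ℕ)
    [hp : Fact p.Prime] [CharP R p]
    (hJ : ∀ (P : Ideal R) [P.IsPrime], ∃ g : R ⧸ P, g ≠ 0 ∧ ∀ (𝔮 : Ideal (R ⧸ P)) [𝔮.IsPrime],
      g ∉ 𝔮 → IsRegularLocalRing (Localization.AtPrime 𝔮)) : IsFPureRegular.{u, w} R p := by
  intro c hc
  obtain ⟨N, hN⟩ := exists_bound hJ c hc ⊥
  refine ⟨N + 1, by omega, ?_⟩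
  set e := N + 1 with he
  have hlt : N < p ^ e := by
    have h1 : e < p ^ e := Nat.lt_pow_self hp.1.one_lt
    omega
  have hflat := flat_FStar R p e
  intro Q _ _
  rw [injective_iff_map_eq_zero]
  intro z hz
  set η : Q := TensorProduct.lid R Q z with hη
  have hzη : z = (1 : R) ⊗ₜ[R] η := by
    rw [hη, ← TensorProduct.lid_symm_apply, LinearEquiv.symm_apply_apply]
  rw [hzη, LinearMap.rTensor_tmul] at hz
  have hc1 : lam R p e c 1 = Fe R p e c := by
    change Fe R p e (c * 1 ^ p ^ e) = Fe R p e c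
    rw [one_pow, mul_one]
  suffices hη0 : η = 0 by rw [hzη, hη0, TensorProduct.tmul_zero]
  by_contra hne
  let I : Ideal R := LinearMap.ker (LinearMap.toSpanSingleton R Q η)
  have hI : I ≠ ⊤ := by
    intro h
    have h1 : (1 : R) ∈ I := by rw [h]; exact Submodule.mem_top
    rw [LinearMap.mem_ker, LinearMap.toSpanSingleton_apply, one_smul] at h1
    exact hne h1
  obtain ⟨m, hm, hIm⟩ := Ideal.exists_le_maximal I hI
  let j : (R ⧸ I) →ₗ[R] Q := Submodule.liftQ I (LinearMap.toSpanSingleton R Q η) le_rfl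
  have hj : Function.Injective j := by
    rw [← LinearMap.ker_eq_bot]
    exact Submodule.ker_liftQ_eq_bot _ _ _ le_rfl
  have hinj := Module.Flat.lTensor_preserves_injective_linearMap (M := FStar R p e) j hj
  have hj1 : j (Submodule.Quotient.mk 1) = η := by
    change Submodule.liftQ I (LinearMap.toSpanSingleton R Q η) le_rfl
      (Submodule.Quotient.mk 1) = η
    rw [Submodule.liftQ_apply, LinearMap.toSpanSingleton_apply, one_smul]
  have h0 : (lam R p e c 1) ⊗ₜ[R] (Submodule.Quotient.mk 1 : R ⧸ I) =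
      (0 : FStar R p e ⊗[R] (R ⧸ I)) := by
    apply hinj
    rw [LinearMap.lTensor_tmul, hj1, map_zero]
    exact hz
  have h1 := congrArg (TensorProduct.tensorQuotEquivQuotSMul (FStar R p e) I) h0
  have h2 : TensorProduct.tensorQuotEquivQuotSMul (FStar R p e) I
      ((lam R p e c 1) ⊗ₜ[R] (Submodule.Quotient.mk 1 : R ⧸ I)) =
      Submodule.Quotient.mk ((1 : R) • (lam R p e c 1)) :=
    TensorProduct.tensorQuotEquivQuotSMul_tmul_mk I _ _
  rw [h2, map_zero, one_smul, Submodule.Quotient.mk_eq_zero] at h1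
  have h3 := mem_map_of_mem_smul_top R p e I _ h1
  have h4 : c ∈ m.map (iterateFrobenius R p e) := by
    have h5 := Ideal.map_mono (f := iterateFrobenius R p e) hIm h3
    rw [hc1, AddEquiv.symm_apply_apply] at h5
    exact h5
  exact hN m bot_le (p ^ e) hlt (iterateFrobenius R p e) (fun a => by rw [iterateFrobenius_def]) h4

theorem generic_of_j_two (R : Type u) [CommRing R]
    (h : ∀ (S : Type u) [CommRing S] [Algebra R S], Algebra.FiniteType R S → RegularLocusOpen S)
    (P : Ideal R) [P.IsPrime] : ∃ g : R ⧸ P, g ≠ 0 ∧ ∀ (𝔮 : Ideal (R ⧸ P)) [𝔮.IsPrime],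
      g ∉ 𝔮 → IsRegularLocalRing (Localization.AtPrime 𝔮) := by
  have hopen := h (R ⧸ P) inferInstance
  have hbot : (⟨⊥, inferInstance⟩ : PrimeSpectrum (R ⧸ P)) ∈
      {x : PrimeSpectrum (R ⧸ P) | IsRegularLocalRing (Localization.AtPrime x.asIdeal)} := by
    change IsRegularLocalRing (Localization.AtPrime (⊥ : Ideal (R ⧸ P)))
    let _ : Field (Localization.AtPrime (⊥ : Ideal (R ⧸ P))) := IsField.toField <| by
      rw [isField_iff_maximalIdeal_eq, ← Localization.AtPrime.map_eq_maximalIdeal, Ideal.map_bot]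
    infer_instance
  obtain ⟨_, ⟨g, rfl⟩, hg, hsub⟩ :=
    PrimeSpectrum.isTopologicalBasis_basic_opens.isOpen_iff.1 hopen _ hbot
  refine ⟨g, ?_, ?_⟩
  · rintro rfl
    exact hg (Ideal.zero_mem _)
  · intro 𝔮 _ hgq
    exact hsub (a := ⟨𝔮, inferInstance⟩) hgq

/-- A regular ring of prime characteristic is F-pure regular as soon as for every prime `P` the
regular locus of `R ⧸ P` contains a nonempty basic open set; in particular every excellent regular
ring of prime characteristic is F-pure regular. -/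
theorem result :
    (∀ (R : Type u) [CommRing R] [IsRegularRing R] (p : ℕ) [Fact p.Prime] [CharP R p],
      (∀ (P : Ideal R) [P.IsPrime], ∃ g : R ⧸ P, g ≠ 0 ∧
        ∀ (𝔮 : Ideal (R ⧸ P)) [𝔮.IsPrime], g ∉ 𝔮 →
          IsRegularLocalRing (Localization.AtPrime 𝔮)) →
      IsFPureRegular.{u, w} R p) ∧
    (∀ (R : Type u) [CommRing R] [IsRegularRing R] (p : ℕ) [Fact p.Prime] [CharP R p],
      IsExcellentRing R → IsFPureRegular.{u, w} R p) :=
  ⟨fun R _ _ p _ _ hJ => fPureRegular_of_generic R p hJ,
    fun R _ _ p _ _ hE => fPureRegular_of_generic R p (generic_of_j_two R hE.j_two)⟩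

end Pool.Agent.Results.MP_9ff724_al.FPureRegular
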